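import Mathlib
import Pool.Agent.Lib_MP_6e4ab6_nt.Full.Final
import Pool.Agent.Lib_MP_6e4ab6_nt.Odd

/-!
# MP_6e4ab6_nt: the complete list of admissible symbols

The list itself is `Pool.Agent.TriCos.Family` (with the tables `pairTable` and `tripleTable`), see
`Pool/Agent/Lib_MP_6e4ab6_nt/Full/Statement.lean`.
-/

namespace Pool.Agent.Results.MP_6e4ab6_nt.AllSymbols

open Real Pool.Agent.TriCos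

/-- The symbol `(m; s₁,t₁,s₂,t₂,s₃,t₃)` is admissible: the four conditions of the problem. -/
structure Admissible (m s₁ t₁ s₂ t₂ s₃ t₃ : ℕ) : Prop where
  pos : 0 < s₁ ∧ 0 < t₁ ∧ 0 < s₂ ∧ 0 < t₂ ∧ 0 < s₃ ∧ 0 < t₃
  cos_eq : cos (s₁ * π / m) * cos (s₂ * π / m) * cos (s₃ * π / m)
    = cos (t₁ * π / m) * cos (t₂ * π / m) * cos (t₃ * π / m)
  adjacent : s₁ ≠ t₁ ∧ t₁ ≠ s₂ ∧ s₂ ≠ t₂ ∧ t₂ ≠ s₃ ∧ s₃ ≠ t₃ ∧ t₃ ≠ s₁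
  lt_half : 2 * s₁ < m ∧ 2 * t₁ < m ∧ 2 * s₂ < m ∧ 2 * t₂ < m ∧ 2 * s₃ < m ∧ 2 * t₃ < m
  even_sum : Even (s₁ + s₂ + s₃ + t₁ + t₂ + t₃)

/-- All entries are positive, and conditions 2 and 3 of the problem hold. -/
structure Ordered (m s₁ t₁ s₂ t₂ s₃ t₃ : ℕ) : Prop where
  pos : 0 < s₁ ∧ 0 < t₁ ∧ 0 < s₂ ∧ 0 < t₂ ∧ 0 < s₃ ∧ 0 < t₃
  adjacent : s₁ ≠ t₁ ∧ t₁ ≠ s₂ ∧ s₂ ≠ t₂ ∧ t₂ ≠ s₃ ∧ s₃ ≠ t₃ ∧ t₃ ≠ s₁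
  lt_half : 2 * s₁ < m ∧ 2 * t₁ < m ∧ 2 * s₂ < m ∧ 2 * t₂ < m ∧ 2 * s₃ < m ∧ 2 * t₃ < m

/-- The symbol is trivial: `(s₁,t₁,s₂,t₂,s₃,t₃) = (b,c,d,b,c,d)` with `b, c, d` distinct, positive
and less than `m/2`. -/
def Trivial (m s₁ t₁ s₂ t₂ s₃ t₃ : ℕ) : Prop :=
  ∃ b c d : ℕ, 0 < b ∧ 0 < c ∧ 0 < d ∧ 2 * b < m ∧ 2 * c < m ∧ 2 * d < m ∧
    b ≠ c ∧ c ≠ d ∧ b ≠ d ∧ s₁ = b ∧ t₁ = c ∧ s₂ = d ∧ t₂ = b ∧ s₃ = c ∧ t₃ = d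

/-- The list for odd `m`: `S` and `T` are, in either order, `{q+p, q-p, p}` and `{q, q, 3p}` with
`m = 3q`, `0 < p < q/2`, or `{21k, 35k, 42k}` and `{15k, 30k, 45k}` with `m = 105k`. -/
def ListedOdd (m : ℕ) (S T : Multiset ℕ) : Prop :=
  (∃ p q : ℕ, 0 < p ∧ 2 * p < q ∧ m = 3 * q ∧
    ((S = {q + p, q - p, p} ∧ T = {q, q, 3 * p}) ∨ (S = {q, q, 3 * p} ∧ T = {q + p, q - p, p}))) ∨
  (∃ k : ℕ, 0 < k ∧ m = 105 * k ∧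
    ((S = {21 * k, 35 * k, 42 * k} ∧ T = {15 * k, 30 * k, 45 * k}) ∨
      (S = {15 * k, 30 * k, 45 * k} ∧ T = {21 * k, 35 * k, 42 * k})))

theorem trivial_of_eq {m s₁ t₁ s₂ t₂ s₃ t₃ : ℕ} (h : Ordered m s₁ t₁ s₂ t₂ s₃ t₃)
    (he : ({s₁, s₂, s₃} : Multiset ℕ) = {t₁, t₂, t₃}) : Trivial m s₁ t₁ s₂ t₂ s₃ t₃ := by
  obtain ⟨⟨p1, p2, p3, p4, p5, p6⟩, ⟨n1, n2, n3, n4, n5, n6⟩, ⟨l1, l2, l3, l4, l5, l6⟩⟩ := h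
  have m1 : s₁ ∈ ({t₁, t₂, t₃} : Multiset ℕ) := by rw [← he]; simp
  have m2 : s₂ ∈ ({t₁, t₂, t₃} : Multiset ℕ) := by rw [← he]; simp
  have m3 : s₃ ∈ ({t₁, t₂, t₃} : Multiset ℕ) := by rw [← he]; simp
  simp only [Multiset.insert_eq_cons, Multiset.mem_cons, Multiset.mem_singleton] at m1 m2 m3
  have e1 : s₁ = t₂ := by
    rcases m1 with h | h | h
    · exact absurd h n1
    · exact h
    · exact absurd h.symm n6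
  have e2 : s₂ = t₃ := by
    rcases m2 with h | h | h
    · exact absurd h.symm n2
    · exact absurd h n3
    · exact h
  have e3 : s₃ = t₁ := by
    rcases m3 with h | h | h
    · exact h
    · exact absurd h.symm n4
    · exact absurd h n5
  exact ⟨s₁, t₁, s₂, p1, p2, p3, l1, l2, l3, n1, n2, by rw [e2]; exact n6.symm, rfl, rfl, rfl, e1.symm,
    e3, e2.symm⟩

theorem admissible_of_trivial {m s₁ t₁ s₂ t₂ s₃ t₃ : ℕ} (h : Trivial m s₁ t₁ s₂ t₂ s₃ t₃) :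
    Admissible m s₁ t₁ s₂ t₂ s₃ t₃ := by
  obtain ⟨b, c, d, hb, hc, hd, lb, lc, ld, h1, h2, h3, rfl, rfl, rfl, rfl, rfl, rfl⟩ := h
  refine ⟨⟨hb, hc, hd, hb, hc, hd⟩, by ring, ⟨h1, h2, h3.symm, h1, h2, h3.symm⟩,
    ⟨lb, lc, ld, lb, lc, ld⟩, ⟨t₂ + s₃ + t₃, by ring⟩⟩

/-- **All admissible symbols.** A symbol is admissible if and only if it is trivial, or all entries
are positive, conditions 2 and 3 hold and the pair `S, T` is in the list (for odd `m`: in the short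
list `ListedOdd`). -/
theorem result (m s₁ t₁ s₂ t₂ s₃ t₃ : ℕ) :
    Admissible m s₁ t₁ s₂ t₂ s₃ t₃ ↔
      Trivial m s₁ t₁ s₂ t₂ s₃ t₃ ∨
      (Ordered m s₁ t₁ s₂ t₂ s₃ t₃ ∧
        ((Even m ∧ Listed m {s₁, s₂, s₃} {t₁, t₂, t₃}) ∨
          (Odd m ∧ ListedOdd m {s₁, s₂, s₃} {t₁, t₂, t₃}))) := by
  constructor
  · intro h
    have ho : Ordered m s₁ t₁ s₂ t₂ s₃ t₃ := ⟨h.pos, h.adjacent, h.lt_half⟩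
    rcases Nat.even_or_odd m with hm | hm
    · obtain ⟨l1, l2, l3, l4, l5, l6⟩ := h.lt_half
      rcases (cos_iff m s₁ s₂ s₃ t₁ t₂ t₃ ⟨l1, l3, l5, l2, l4, l6⟩).1 h.cos_eq with he | hl
      · exact Or.inl (trivial_of_eq ho he)
      · exact Or.inr ⟨ho, Or.inl ⟨hm, hl⟩⟩
    · have h' : Pool.Agent.Lib_MP_6e4ab6_nt.Odd.Admissible m s₁ t₁ s₂ t₂ s₃ t₃ :=
        ⟨h.pos, h.cos_eq, h.adjacent, h.lt_half, h.even_sum⟩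
      rcases (Pool.Agent.Lib_MP_6e4ab6_nt.Odd.result m s₁ t₁ s₂ t₂ s₃ t₃ hm).1 h' with
        ht | ⟨p, q, h1, h2, h3, h4⟩ | ⟨k, h1, h2, h3⟩
      · exact Or.inl ht
      · exact Or.inr ⟨ho, Or.inr ⟨hm, Or.inl ⟨p, q, h1, h2, h3, h4⟩⟩⟩
      · exact Or.inr ⟨ho, Or.inr ⟨hm, Or.inr ⟨k, h1, h2, h3⟩⟩⟩
  · rintro (ht | ⟨ho, ⟨hm, hl⟩ | ⟨hm, hl⟩⟩)
    · exact admissible_of_trivial ht
    · obtain ⟨l1, l2, l3, l4, l5, l6⟩ := ho.lt_half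
      have hc := (cos_iff m s₁ s₂ s₃ t₁ t₂ t₃ ⟨l1, l3, l5, l2, l4, l6⟩).2 (Or.inr hl)
      exact ⟨ho.pos, hc, ho.adjacent, ho.lt_half,
        parity_even m s₁ s₂ s₃ t₁ t₂ t₃ hm ⟨l1, l3, l5, l2, l4, l6⟩ hc⟩
    · have h' : Pool.Agent.Lib_MP_6e4ab6_nt.Odd.Admissible m s₁ t₁ s₂ t₂ s₃ t₃ := by
        apply (Pool.Agent.Lib_MP_6e4ab6_nt.Odd.result m s₁ t₁ s₂ t₂ s₃ t₃ hm).2
        rcases hl with ⟨p, q, h1, h2, h3, h4⟩ | ⟨k, h1, h2, h3⟩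
        · exact Or.inr (Or.inl ⟨p, q, h1, h2, h3, h4⟩)
        · exact Or.inr (Or.inr ⟨k, h1, h2, h3⟩)
      exact ⟨h'.pos, h'.cos_eq, h'.adjacent, h'.lt_half, h'.even_sum⟩

end Pool.Agent.Results.MP_6e4ab6_nt.AllSymbols
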